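import Pool.Agent.Lib.MP_5bcdfb_an.VX.Main

/-!
# MP_5bcdfb: the Banach spaces `X` for which the vector valued form of Q1 has a positive answer

Let `X` be a Banach space, `n ≥ 2`. Every continuous valuation `C(S^(n-1))^+ → X` is uniformly continuous on bounded sets if and only if `X` has no
uniformly weakly null sequence `x` with `inf ‖x_k‖ > 0`. If `X` has none, this holds for `C(K)^+`, `K` any compact metric space. For `X = C(S^(m-1))`,
`m ≥ 2`, it fails even for some star body valued `V` (`V f ≥ 0`).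
-/

set_option autoImplicit false

open Pool.Agent.Lib.MP5bcdfb.TS Pool.Agent.Lib.MP5bcdfb.VV Pool.Agent.Lib.MP5bcdfb.VX

theorem Pool.Agent.Results.MP_5bcdfb_an.BanachTargets.result :
    (∀ (X : Type) [NormedAddCommGroup X] [NormedSpace ℝ X] [CompleteSpace X],
      (∀ n : ℕ, 2 ≤ n → ((∀ V : C(Sph n, ℝ) → X, ValX V → ContX V → UCX V) ↔ ¬ HasUWN X)) ∧
      (¬ HasUWN X → ∀ (K : Type) [MetricSpace K] [CompactSpace K] (V : C(K, ℝ) → X), ValX V → ContX V → UCX V)) ∧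
    ∀ n m : ℕ, 2 ≤ n → 2 ≤ m →
      ∃ V : C(Sph n, ℝ) → C(Sph m, ℝ), (∀ f, 0 ≤ f → 0 ≤ V f) ∧ ValX V ∧ ContX V ∧ ¬ UCX V :=
  ⟨fun X _ _ _ => ⟨fun n hn => sph_iff X n hn, fun hX K _ _ V => allFIN K X hX V⟩,
    fun n m hn hm => sph_rmv n m hn hm⟩
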