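import Pool.Agent.Lib.MP_5bcdfb_an.HM.Last

/-!
# MP_5bcdfb: homogeneous valuations on star bodies, continuous at two bodies

Let `C(K)^+` be the cone of the nonnegative continuous functions on a compact space `K`. (`K = S^(n-1)`: a function `f ≥ 0` is the
radial function of a star body, the radial metric is the sup norm.) Let `p > 0`, `X` a normed space, and let `V` be an `X`-valued
valuation on `C(K)^+`, homogeneous of degree `p`. Then `V` is continuous at the two functions `0` and `a`, for some strictly positive
function `a`, if and only if `V f = L (f ^ p)` for a bounded linear map `L : C(K) → X`; then `V` is uniformly continuous on bounded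
sets. If `K = S^(n-1)` and `V` is invariant under the orthogonal group, then `V f` is a constant vector times the integral of `f ^ p`
over the sphere. On the spheres `S^(n-1)`, `n ≥ 2`, neither of the two continuity conditions can be dropped, for `X = ℝ`.
-/

set_option autoImplicit false

open Pool.Agent.Lib.MP5bcdfb.HV

theorem Pool.Agent.Results.MP_5bcdfb_an.HomogeneousValuations.result :
    (∀ (K : Type) [TopologicalSpace K] [CompactSpace K] (X : Type) [NormedAddCommGroup X] [NormedSpace ℝ X]
      (p : ℝ) (V : C(K, ℝ) → X), 0 < p → Val V → Hom p V → (TwoPoint V ↔ PowLin p V) ∧ (TwoPoint V → UCB V)) ∧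
    (∀ n : ℕ, 1 ≤ n → ∀ p : ℝ, 0 < p → ∀ (X : Type) [NormedAddCommGroup X] [NormedSpace ℝ X] (V : C(Sph n, ℝ) → X),
      Val V → Hom p V → TwoPoint V → RotInv V → PowMean p V) ∧
    ∀ n : ℕ, 2 ≤ n → ∀ p : ℝ, 0 < p →
      (∃ V : C(Sph n, ℝ) → ℝ, Val V ∧ Hom p V ∧ OnlyZero V) ∧ ∃ V : C(Sph n, ℝ) → ℝ, Val V ∧ Hom p V ∧ NotZero V :=
  ⟨fun K _ _ X _ _ p V hp hV hom => last1 K X p V hp hV hom,
    fun n hn p hp X _ _ V hV hom h hr => last2 n hn p hp X V hV hom h hr, last3⟩
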