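import Pool.Agent.Lib.MP_5bcdfb_an.ND.Main

/-!
# MP_5bcdfb: Q1 for the symmetric difference metric

Let `K` be a compact metric space, `σ` a finite Borel measure on `K`, `p ≥ 1` an integer and `nk σ p f g = ∫ |f^p - g^p| dσ` (for `K = S^(n-1)`, `p = n`, `σ` = surface measure divided by
`n`: the volume of the symmetric difference of the star bodies with radial functions `f, g`).

(1) Every valuation on `C(K)^+` which is continuous for `nk` is uniformly continuous for `nk` on bounded sets. It is enough that it is sup norm continuous at the functions of a set with the property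
`Test` and, on bounded sets, `nk`-continuous at the single function `0`. (2) On the sets of bounded volume `∫ f^p ≤ 1` this is false.
-/

set_option autoImplicit false

open MeasureTheory Pool.Agent.Lib.MP5bcdfb.TS Pool.Agent.Lib.MP5bcdfb.ND

theorem Pool.Agent.Results.MP_5bcdfb_an.SymmetricDifference.result :
    ∀ (K : Type) [MetricSpace K] [CompactSpace K] [MeasurableSpace K] [BorelSpace K] (σ : Measure K) [IsFiniteMeasure σ] (p : ℕ), 1 ≤ p →
      (∀ V : C(K, ℝ) → ℝ, IsVal V → NCont σ p V → UCN σ p V) ∧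
      (∀ D : Set C(K, ℝ), (∀ f ∈ D, 0 ≤ f) → Test D → ∀ V : C(K, ℝ) → ℝ, IsVal V → (∀ f ∈ D, ContAt V f) → NC0 σ p V → UCN σ p V) ∧
      ∀ t : K, σ {t} = 0 → (∀ r : ℝ, 0 < r → 0 < σ (Metric.ball t r)) →
        ∃ V : C(K, ℝ) → ℝ, IsVal V ∧ NCont σ p V ∧ ∃ ε : ℝ, 0 < ε ∧ ∀ δ : ℝ, 0 < δ → ∃ f g : C(K, ℝ), 0 ≤ f ∧ 0 ≤ g ∧
          ∫ x, f x ^ p ∂σ ≤ 1 ∧ ∫ x, g x ^ p ∂σ ≤ 1 ∧ nk σ p f g < δ ∧ ε ≤ |V f - V g| :=
  fun K _ _ _ _ σ _ p hp => ⟨fun V hV hc => nd_main K σ p hp V hV hc,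
    fun D hD0 hD V hV hc h0 => nd_pos K σ p hp D hD0 hD V hV hc h0, fun t ht hs => nd_neg K σ p hp t ht hs⟩
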