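import Pool.Agent.Lib.MP_5bcdfb_an.TS.Sph

/-!
# MP_5bcdfb: at which star bodies must a radial valuation be continuous?

Let `K` be a compact metric space and `C(K)^+` the cone of the nonnegative continuous functions. (`K = S^(n-1)`: a function `f ≥ 0`
is the radial function of a star set with continuous radial function, the radial metric is the sup norm.) For a set `D` of functions in
`C(K)^+`:

every valuation on `C(K)^+` which is continuous at every `f ∈ D` is uniformly continuous on bounded sets
if and only if
for every `a ∈ C(K)^+` and every finite Borel measure `μ ≠ 0` on `K` some `f ∈ D` has `μ {f = a} > 0`.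

(The case `D = C(K)^+` is the known positive answer.) On the sphere `S^(n-1)`, `n ≥ 2`, the functions which are locally constant on a
dense open set have the property, the Lipschitz functions do not have it.
-/

set_option autoImplicit false

open MeasureTheory Set TopologicalSpace Filter Topology
open Pool.Agent.Lib.MP5bcdfb.TS

theorem Pool.Agent.Results.MP_5bcdfb_an.TestSets.result :
    (∀ (K : Type) [MetricSpace K] [CompactSpace K] [MeasurableSpace K] [BorelSpace K] (D : Set C(K, ℝ)),
      (∀ f ∈ D, 0 ≤ f) →
      ((∀ V : C(K, ℝ) → ℝ, IsVal V → (∀ f ∈ D, ContAt V f) → UCB V) ↔ Test D)) ∧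
    (∀ n : ℕ, 2 ≤ n → ∀ V : C(Sph n, ℝ) → ℝ, IsVal V → (∀ f, 0 ≤ f → DenseLC f → ContAt V f) → UCB V) ∧
    ∀ n : ℕ, 2 ≤ n → ∃ V : C(Sph n, ℝ) → ℝ, IsVal V ∧ (∀ f, 0 ≤ f → Lip f → ContAt V f) ∧ ¬ UCB V :=
  ⟨fun K _ _ _ _ D hD => criterion allFWD specBWD K D hD, sph_dense, sph_lip⟩
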